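import Mathlib
import Pool.Agent.H.MP_24cde2_gt.Main
set_option autoImplicit false
namespace Pool.Agent.Results.MP_723ccc_gt.Main
open Set Topology
universe u

def IsFreeTVS {X V : Type u} [TopologicalSpace X] [AddCommGroup V] [Module ℝ V]
    [TopologicalSpace V] (i : X → V) : Prop :=
  IsTopologicalAddGroup V ∧ ContinuousSMul ℝ V ∧ Continuous i ∧
    ∀ (E : Type u) [AddCommGroup E] [Module ℝ E] [TopologicalSpace E] [IsTopologicalAddGroup E]
      [ContinuousSMul ℝ E] (f : X → E), Continuous f → ∃! g : V →L[ℝ] E, ∀ x, g (i x) = f x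

def sp {X V : Type u} [AddCommGroup V] [Module ℝ V] (i : X → V) (n : ℕ) : Set V :=
  {v | ∃ (l : Fin n → ℝ) (x : Fin n → X), (∀ j, |l j| ≤ n) ∧ v = ∑ j, l j • i (x j)}

def CountablyTight (Z : Type u) [TopologicalSpace Z] : Prop :=
  ∀ A : Set Z, closure A = ⋃ C ∈ {C | C ⊆ A ∧ C.Countable}, closure C

theorem result {X V : Type u} [TopologicalSpace X] [TopologicalSpace.MetrizableSpace X]
    [AddCommGroup V] [Module ℝ V] [TopologicalSpace V] (i : X → V) (hi : IsFreeTVS i)
    (h : CountablyTight (sp i 2)) : CountablyTight (sp i 4) := by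
  letI := TopologicalSpace.metrizableSpaceMetric X
  have : SecondCountableTopology X := by
    by_contra hX
    have : Nonempty X := by_contra fun h => hX (by rw [not_nonempty_iff] at h; infer_instance)
    obtain ⟨ι, a, h1, h2, h3⟩ := H.MP_24cde2_gt.Free.nonsep hi hX
    let b : ι → sp i 2 := fun k => ⟨a k, h1 k⟩
    have h4 : (⟨0, H.MP_24cde2_gt.zero2 i⟩ : sp i 2) ∈ closure (range b) :=
      closure_subtype.2 (by rwa [← range_comp])
    rw [h] at h4
    obtain ⟨C, ⟨h5, h6⟩, h7⟩ := mem_iUnion₂.1 h4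
    have : Nonempty ι := (closure_nonempty_iff.1 ⟨_, h7⟩).elim fun z hz => ⟨(h5 hz).choose⟩
    choose! k hk using fun z (hz : z ∈ C) => h5 hz
    obtain ⟨φ, g, -, h8⟩ := h3 _ (h6.image k)
    have h9 : (1 : ℝ) ≤ φ 0 := closure_minimal (t := {z : sp i 2 | 1 ≤ φ z}) (fun z hz => by
      have := h8 _ ⟨z, hz, rfl⟩
      rw [← hk z hz]
      exact le_trans (le_add_of_nonneg_left (Nat.cast_nonneg _)) this)
      (isClosed_le continuous_const (by fun_prop)) h7
    norm_num at h9
  intro A
  obtain ⟨C, h1, h2, h3⟩ := H.MP_24cde2_gt.Free.tight hi 4 ((↑) '' A)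
    (Subtype.coe_image_subset _ A)
  refine Subset.antisymm (fun z hz => mem_iUnion₂.2 ⟨(↑) ⁻¹' C,
    ⟨(preimage_mono h1).trans (preimage_image_eq _ Subtype.val_injective).le,
      h2.preimage Subtype.val_injective⟩, closure_subtype.2 ?_⟩)
    (iUnion₂_subset fun C hC => closure_mono hC.1)
  rw [image_preimage_eq_of_subset (h1.trans (image_subset_range _ _))]
  exact closure_minimal h3 isClosed_closure (closure_subtype.1 hz)

end Pool.Agent.Results.MP_723ccc_gt.Main
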